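import Pool.Agent.TSmall.Scan

/-!
# no 8-independent triples modulo 122 to 128 (helper3)
-/

set_option autoImplicit false
set_option maxRecDepth 100000

namespace Pool.Agent.TSmall

theorem nt_8_122 : noTriple 122 8 = true := by decide +kernel

theorem nt_8_123 : noTriple 123 8 = true := by decide +kernel

theorem nt_8_124 : noTriple 124 8 = true := by decide +kernel

theorem nt_8_125 : noTriple 125 8 = true := by decide +kernel

theorem nt_8_126 : noTriple 126 8 = true := by decide +kernel

theorem nt_8_127 : noTriple 127 8 = true := by decide +kernel

theorem nt_8_128 : noTriple 128 8 = true := by decide +kernel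

end Pool.Agent.TSmall
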