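import Pool.Agent.TSmall.Scan

/-!
# no 8-independent triples modulo 129 to 134 (helper3)
-/

set_option autoImplicit false
set_option maxRecDepth 100000

namespace Pool.Agent.TSmall

theorem nt_8_129 : noTriple 129 8 = true := by decide +kernel

theorem nt_8_130 : noTriple 130 8 = true := by decide +kernel

theorem nt_8_131 : noTriple 131 8 = true := by decide +kernel

theorem nt_8_132 : noTriple 132 8 = true := by decide +kernel

theorem nt_8_133 : noTriple 133 8 = true := by decide +kernel

theorem nt_8_134 : noTriple 134 8 = true := by decide +kernel

end Pool.Agent.TSmall
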