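import Pool.Agent.TSmall.Scan

/-!
# no 8-independent triples modulo 135 to 139 (helper3)
-/

set_option autoImplicit false
set_option maxRecDepth 100000

namespace Pool.Agent.TSmall

theorem nt_8_135 : noTriple 135 8 = true := by decide +kernel

theorem nt_8_136 : noTriple 136 8 = true := by decide +kernel

theorem nt_8_137 : noTriple 137 8 = true := by decide +kernel

theorem nt_8_138 : noTriple 138 8 = true := by decide +kernel

theorem nt_8_139 : noTriple 139 8 = true := by decide +kernel

end Pool.Agent.TSmall
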