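import Pool.Agent.TSmall.Scan

/-!
# no 8-independent triples modulo 140 to 144 and 146 (helper3)
-/

set_option autoImplicit false
set_option maxRecDepth 100000

namespace Pool.Agent.TSmall

theorem nt_8_140 : noTriple 140 8 = true := by decide +kernel

theorem nt_8_141 : noTriple 141 8 = true := by decide +kernel

theorem nt_8_142 : noTriple 142 8 = true := by decide +kernel

theorem nt_8_143 : noTriple 143 8 = true := by decide +kernel

theorem nt_8_144 : noTriple 144 8 = true := by decide +kernel

theorem nt_8_146 : noTriple 146 8 = true := by decide +kernel

end Pool.Agent.TSmall
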