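import Pool.Agent.TSmall.Scan

/-!
# no independent triples, t = 4, 6 (helper3)
-/

set_option autoImplicit false
set_option maxRecDepth 100000

namespace Pool.Agent.TSmall

theorem nt_4_21 : noTriple 21 4 = true := by decide +kernel

theorem nt_4_22 : noTriple 22 4 = true := by decide +kernel

theorem nt_4_23 : noTriple 23 4 = true := by decide +kernel

theorem nt_4_24 : noTriple 24 4 = true := by decide +kernel

theorem nt_4_25 : noTriple 25 4 = true := by decide +kernel

theorem nt_4_26 : noTriple 26 4 = true := by decide +kernel

theorem nt_6_58 : noTriple 58 6 = true := by decide +kernel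

theorem nt_6_59 : noTriple 59 6 = true := by decide +kernel

theorem nt_6_60 : noTriple 60 6 = true := by decide +kernel

theorem nt_6_61 : noTriple 61 6 = true := by decide +kernel

theorem nt_6_62 : noTriple 62 6 = true := by decide +kernel

theorem nt_6_63 : noTriple 63 6 = true := by decide +kernel

theorem nt_6_64 : noTriple 64 6 = true := by decide +kernel

theorem nt_6_65 : noTriple 65 6 = true := by decide +kernel

theorem nt_6_66 : noTriple 66 6 = true := by decide +kernel

theorem nt_6_67 : noTriple 67 6 = true := by decide +kernel

theorem nt_6_68 : noTriple 68 6 = true := by decide +kernel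

theorem nt_6_69 : noTriple 69 6 = true := by decide +kernel

end Pool.Agent.TSmall
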