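import Pool.Agent.TSmall.Scan
import Pool.Agent.TSmall.FourSix
import Pool.Agent.TSmall.EightA
import Pool.Agent.TSmall.EightB
import Pool.Agent.TSmall.EightC
import Pool.Agent.TSmall.EightD
import Pool.Agent.TInd.Asym

/-!
# The sets `N 4`, `N 6`, `N 8` (helper3)
-/

set_option autoImplicit false
set_option maxRecDepth 100000

namespace Pool.Agent.TSmall

open Pool.Agent.TInd

theorem mem_of_noTriple {n t : ℕ} (ht : 2 ≤ t) (hev : Even t) (h1 : t ^ 2 / 2 + t + 1 ≤ n)
    (h : noTriple n t = true) : n ∈ N t := by
  obtain ⟨k, rfl⟩ := hev
  have hk : 1 ≤ k := by omega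
  have e : (k + k) ^ 2 / 2 = 2 * k ^ 2 := by
    rw [show (k + k) ^ 2 = 2 * (2 * k ^ 2) by ring]
    exact Nat.mul_div_cancel_left _ (by norm_num)
  rw [e] at h1
  rw [mem_N_iff]
  refine ⟨by omega, ?_, ?_⟩
  · have h2 := pair_indep (n := n) hk (by omega)
    rwa [two_mul] at h2
  · rw [triple_iff' (by omega) ht]
    rintro ⟨a, b, c, hi⟩
    exact noTriple_sound (by omega) h a b c hi

theorem not_mem_of_ind3 {n t : ℕ} (hn : 1 ≤ n) (ht : 2 ≤ t) {a b c : ℤ} (h : Ind3 n t a b c) :
    n ∉ N t := by
  rw [mem_N_iff]
  rintro ⟨-, -, h3⟩
  exact h3 ((triple_iff' hn ht).2 ⟨a, b, c, h⟩)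

theorem mem_low {n t : ℕ} (ht : 2 ≤ t) (hev : Even t) (h1 : t ^ 2 / 2 + t + 1 ≤ n)
    (h : 6 * n < (t + 1) ^ 3) : n ∈ N t := by
  refine mem_N_low ht hev h1 ?_
  have h2 := le_octDet
  have h3 : (6 : ℝ) * n < ((t : ℝ) + 1) ^ 3 := by exact_mod_cast h
  have h4 : (0 : ℝ) ≤ ((t : ℝ) + 1) ^ 3 := by positivity
  nlinarith

theorem N_four : N 4 = Set.Icc 13 26 := by
  ext n
  constructor
  · intro h
    have h1 := N_ge (by norm_num) (by decide) h
    refine ⟨by omega, ?_⟩
    by_contra hlt
    push Not at hlt
    rcases Nat.lt_or_ge n 29 with h2 | h2
    · interval_cases n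
      · exact not_mem_of_ind3 (by norm_num) (by norm_num)
          (indOK_sound (by decide +kernel : indOK 27 4 1 4 10 = true)) h
      · exact not_mem_of_ind3 (by norm_num) (by norm_num)
          (indOK_sound (by decide +kernel : indOK 28 4 1 4 11 = true)) h
    · exact not_mem_of_ind3 (by omega) (by norm_num)
        (ind_large (by norm_num) (by norm_num) (by norm_num) h2
          (by decide +kernel : indOK 29 4 4 5 7 = true)) h
  · rintro ⟨h1, h2⟩
    rcases Nat.lt_or_ge n 21 with h3 | h3
    · exact mem_low (by norm_num) (by decide) (by omega) (by omega)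
    · interval_cases n
      · exact mem_of_noTriple (by norm_num) (by decide) (by norm_num) nt_4_21
      · exact mem_of_noTriple (by norm_num) (by decide) (by norm_num) nt_4_22
      · exact mem_of_noTriple (by norm_num) (by decide) (by norm_num) nt_4_23
      · exact mem_of_noTriple (by norm_num) (by decide) (by norm_num) nt_4_24
      · exact mem_of_noTriple (by norm_num) (by decide) (by norm_num) nt_4_25
      · exact mem_of_noTriple (by norm_num) (by decide) (by norm_num) nt_4_26

theorem N_six : N 6 = Set.Icc 25 69 := by
  ext n
  constructor
  · intro h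
    have h1 := N_ge (by norm_num) (by decide) h
    refine ⟨by omega, ?_⟩
    by_contra hlt
    push Not at hlt
    rcases Nat.lt_or_ge n 73 with h2 | h2
    · interval_cases n
      · exact not_mem_of_ind3 (by norm_num) (by norm_num)
          (indOK_sound (by decide +kernel : indOK 70 6 1 16 25 = true)) h
      · exact not_mem_of_ind3 (by norm_num) (by norm_num)
          (indOK_sound (by decide +kernel : indOK 71 6 1 7 30 = true)) h
      · exact not_mem_of_ind3 (by norm_num) (by norm_num)
          (indOK_sound (by decide +kernel : indOK 72 6 1 8 30 = true)) h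
    · exact not_mem_of_ind3 (by omega) (by norm_num)
        (ind_large (by norm_num) (by norm_num) (by norm_num) h2
          (by decide +kernel : indOK 73 6 7 11 12 = true)) h
  · rintro ⟨h1, h2⟩
    rcases Nat.lt_or_ge n 58 with h3 | h3
    · exact mem_low (by norm_num) (by decide) (by omega) (by omega)
    · interval_cases n
      · exact mem_of_noTriple (by norm_num) (by decide) (by norm_num) nt_6_58
      · exact mem_of_noTriple (by norm_num) (by decide) (by norm_num) nt_6_59
      · exact mem_of_noTriple (by norm_num) (by decide) (by norm_num) nt_6_60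
      · exact mem_of_noTriple (by norm_num) (by decide) (by norm_num) nt_6_61
      · exact mem_of_noTriple (by norm_num) (by decide) (by norm_num) nt_6_62
      · exact mem_of_noTriple (by norm_num) (by decide) (by norm_num) nt_6_63
      · exact mem_of_noTriple (by norm_num) (by decide) (by norm_num) nt_6_64
      · exact mem_of_noTriple (by norm_num) (by decide) (by norm_num) nt_6_65
      · exact mem_of_noTriple (by norm_num) (by decide) (by norm_num) nt_6_66
      · exact mem_of_noTriple (by norm_num) (by decide) (by norm_num) nt_6_67
      · exact mem_of_noTriple (by norm_num) (by decide) (by norm_num) nt_6_68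
      · exact mem_of_noTriple (by norm_num) (by decide) (by norm_num) nt_6_69

theorem N_eight : N 8 = Set.Icc 41 144 ∪ {146} := by
  ext n
  constructor
  · intro h
    have h1 := N_ge (by norm_num) (by decide) h
    rcases Nat.lt_or_ge 144 n with h2 | h2
    · right
      by_contra hne
      rw [Set.mem_singleton_iff] at hne
      rcases Nat.lt_or_ge n 153 with h3 | h3
      · interval_cases n
        · exact not_mem_of_ind3 (by norm_num) (by norm_num)
            (indOK_sound (by decide +kernel : indOK 145 8 1 9 61 = true)) h
        · exact hne rfl
        · exact not_mem_of_ind3 (by norm_num) (by norm_num)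
            (indOK_sound (by decide +kernel : indOK 147 8 1 9 62 = true)) h
        · exact not_mem_of_ind3 (by norm_num) (by norm_num)
            (indOK_sound (by decide +kernel : indOK 148 8 1 32 46 = true)) h
        · exact not_mem_of_ind3 (by norm_num) (by norm_num)
            (indOK_sound (by decide +kernel : indOK 149 8 1 12 52 = true)) h
        · exact not_mem_of_ind3 (by norm_num) (by norm_num)
            (indOK_sound (by decide +kernel : indOK 150 8 1 16 26 = true)) h
        · exact not_mem_of_ind3 (by norm_num) (by norm_num)
            (indOK_sound (by decide +kernel : indOK 151 8 1 10 63 = true)) h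
        · exact not_mem_of_ind3 (by norm_num) (by norm_num)
            (indOK_sound (by decide +kernel : indOK 152 8 1 14 66 = true)) h
      · exact not_mem_of_ind3 (by omega) (by norm_num)
          (ind_large (by norm_num) (by norm_num) (by norm_num) h3
            (by decide +kernel : indOK 153 8 14 16 19 = true)) h
    · left
      exact ⟨by omega, h2⟩
  · intro hn
    have h1 : 41 ≤ n := by
      rcases hn with hn | hn
      · exact hn.1
      · rw [Set.mem_singleton_iff] at hn
        omega
    have h2 : n ≤ 146 ∧ n ≠ 145 := by
      rcases hn with hn | hn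
      · have := hn.2
        omega
      · rw [Set.mem_singleton_iff] at hn
        omega
    obtain ⟨h2, h2'⟩ := h2
    rcases Nat.lt_or_ge n 121 with h3 | h3
    · exact mem_low (by norm_num) (by decide) (by omega) (by omega)
    · interval_cases n
      · exact mem_low (by norm_num) (by decide) (by norm_num) (by norm_num)
      · exact mem_of_noTriple (by norm_num) (by decide) (by norm_num) nt_8_122
      · exact mem_of_noTriple (by norm_num) (by decide) (by norm_num) nt_8_123
      · exact mem_of_noTriple (by norm_num) (by decide) (by norm_num) nt_8_124
      · exact mem_of_noTriple (by norm_num) (by decide) (by norm_num) nt_8_125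
      · exact mem_of_noTriple (by norm_num) (by decide) (by norm_num) nt_8_126
      · exact mem_of_noTriple (by norm_num) (by decide) (by norm_num) nt_8_127
      · exact mem_of_noTriple (by norm_num) (by decide) (by norm_num) nt_8_128
      · exact mem_of_noTriple (by norm_num) (by decide) (by norm_num) nt_8_129
      · exact mem_of_noTriple (by norm_num) (by decide) (by norm_num) nt_8_130
      · exact mem_of_noTriple (by norm_num) (by decide) (by norm_num) nt_8_131
      · exact mem_of_noTriple (by norm_num) (by decide) (by norm_num) nt_8_132
      · exact mem_of_noTriple (by norm_num) (by decide) (by norm_num) nt_8_133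
      · exact mem_of_noTriple (by norm_num) (by decide) (by norm_num) nt_8_134
      · exact mem_of_noTriple (by norm_num) (by decide) (by norm_num) nt_8_135
      · exact mem_of_noTriple (by norm_num) (by decide) (by norm_num) nt_8_136
      · exact mem_of_noTriple (by norm_num) (by decide) (by norm_num) nt_8_137
      · exact mem_of_noTriple (by norm_num) (by decide) (by norm_num) nt_8_138
      · exact mem_of_noTriple (by norm_num) (by decide) (by norm_num) nt_8_139
      · exact mem_of_noTriple (by norm_num) (by decide) (by norm_num) nt_8_140
      · exact mem_of_noTriple (by norm_num) (by decide) (by norm_num) nt_8_141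
      · exact mem_of_noTriple (by norm_num) (by decide) (by norm_num) nt_8_142
      · exact mem_of_noTriple (by norm_num) (by decide) (by norm_num) nt_8_143
      · exact mem_of_noTriple (by norm_num) (by decide) (by norm_num) nt_8_144
      · exact absurd rfl h2'
      · exact mem_of_noTriple (by norm_num) (by decide) (by norm_num) nt_8_146

end Pool.Agent.TSmall
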