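import Pool.Agent.TInd.Triple

/-!
# Independent triples in cyclic groups: an exhaustive check with bit masks (helper3)
-/

set_option autoImplicit false

namespace Pool.Agent.TSmall

/-- cyclic shift of the bit mask `S` by `a` modulo `n` -/
def rot (n S a : ℕ) : ℕ := ((S <<< a) ||| (S >>> (n - a))) % 2 ^ n

def step (n a b S : ℕ) : ℕ :=
  S ||| (rot n S a ||| (rot n S (n - a) ||| (rot n S b ||| rot n S (n - b))))

/-- the masks of the signed sums of `a` and `b` of weight at most `r - 1, r - 2, ..., 0` -/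
def masks (n a b : ℕ) : ℕ → List ℕ
  | 0 => []
  | 1 => [1]
  | r + 2 => match masks n a b (r + 1) with
    | [] => []
    | S :: L => step n a b S :: S :: L

def hit (n c : ℕ) : ℕ → List ℕ → Bool
  | _, [] => false
  | k, S :: L => S.testBit (k * c % n) || hit n c (k + 1) L

def allUpTo (f : ℕ → Bool) : ℕ → Bool
  | 0 => f 0
  | m + 1 => f (m + 1) && allUpTo f m

def anyUpTo (f : ℕ → Bool) : ℕ → Bool
  | 0 => f 0
  | m + 1 => f (m + 1) || anyUpTo f m

def scanA (n t a : ℕ) : Bool :=
  hit n a 1 (masks n 0 0 t) ||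
  allUpTo (fun b => hit n b 1 (masks n a 0 t) ||
    allUpTo (fun c => hit n c 1 (masks n a b t)) (n / 2)) (n / 2)

/-- the possible first elements: `0` and the divisors of `n` -/
def divs (n : ℕ) : List ℕ := 0 :: (List.range n).filter fun d => n % d == 0

def unitOK (n : ℕ) : Bool :=
  allUpTo (fun a => anyUpTo (fun u => Nat.gcd u n == 1 && (divs n).contains (u * a % n)) (n - 1))
    (n - 1)

def noTriple (n t : ℕ) : Bool := unitOK n && (divs n).all fun a => scanA n t a

theorem allUpTo_iff {f : ℕ → Bool} {m : ℕ} (h : allUpTo f m = true) :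
    ∀ k ≤ m, f k = true := by
  induction m with
  | zero =>
    intro k hk
    have : k = 0 := by omega
    subst this
    exact h
  | succ m ih =>
    intro k hk
    simp only [allUpTo, Bool.and_eq_true] at h
    rcases Nat.lt_or_ge m k with h1 | h1
    · have : k = m + 1 := by omega
      subst this
      exact h.1
    · exact ih h.2 k h1

theorem anyUpTo_iff {f : ℕ → Bool} {m : ℕ} (h : anyUpTo f m = true) :
    ∃ k ≤ m, f k = true := by
  induction m with
  | zero => exact ⟨0, le_rfl, h⟩
  | succ m ih =>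
    simp only [anyUpTo, Bool.or_eq_true] at h
    rcases h with h | h
    · exact ⟨m + 1, le_rfl, h⟩
    · obtain ⟨k, hk, hf⟩ := ih h
      exact ⟨k, by omega, hf⟩

/-- `(a, b, c)` has no relation of weight at most `t` modulo `n` -/
def Ind3 (n t : ℕ) (a b c : ℤ) : Prop :=
  ∀ x y z : ℤ, ¬ (x = 0 ∧ y = 0 ∧ z = 0) → (n : ℤ) ∣ x * a + y * b + z * c →
    (t : ℤ) < |x| + |y| + |z|

theorem rot_bit {n S a x : ℕ} (ha : a ≤ n) (h : (rot n S a).testBit x = true) :
    ∃ x' : ℕ, S.testBit x' = true ∧ (n : ℤ) ∣ (x' : ℤ) + a - x := by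
  unfold rot at h
  rw [Nat.testBit_mod_two_pow, Nat.testBit_or, Nat.testBit_shiftLeft, Nat.testBit_shiftRight] at h
  simp only [Bool.and_eq_true, Bool.or_eq_true, decide_eq_true_eq] at h
  obtain ⟨hx, h | h⟩ := h
  · refine ⟨x - a, h.2, ?_⟩
    have h1 : a ≤ x := h.1
    rw [Nat.cast_sub h1]
    exact ⟨0, by ring⟩
  · refine ⟨n - a + x, h, ?_⟩
    push_cast [Nat.cast_sub ha]
    exact ⟨1, by ring⟩

/-- all bits of `S` are signed sums of `a` and `b` of weight at most `r` -/
def Repr (n a b r S : ℕ) : Prop :=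
  ∀ x : ℕ, S.testBit x = true → ∃ i j : ℤ, |i| + |j| ≤ r ∧ (n : ℤ) ∣ i * a + j * b - x

theorem repr_step {n a b r S : ℕ} (ha : a ≤ n) (hb : b ≤ n) (h : Repr n a b r S) :
    Repr n a b (r + 1) (step n a b S) := by
  intro x hx
  unfold step at hx
  simp only [Nat.testBit_or, Bool.or_eq_true] at hx
  have key : ∀ (v : ℕ) (i0 j0 : ℤ), |i0| + |j0| ≤ 1 → v ≤ n →
      ((n : ℤ) ∣ (v : ℤ) - (i0 * a + j0 * b)) → (rot n S v).testBit x = true →
      ∃ i j : ℤ, |i| + |j| ≤ ((r + 1 : ℕ) : ℤ) ∧ (n : ℤ) ∣ i * a + j * b - x := by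
    intro v i0 j0 h0 hv hd hr
    obtain ⟨x', h1, h2⟩ := rot_bit hv hr
    obtain ⟨i, j, h3, h4⟩ := h x' h1
    refine ⟨i + i0, j + j0, ?_, ?_⟩
    · have e1 := abs_add_le i i0
      have e2 := abs_add_le j j0
      push_cast
      linarith
    · have := dvd_add (dvd_sub h4 hd) h2
      have e : i * a + j * b - (x' : ℤ) - ((v : ℤ) - (i0 * a + j0 * b)) + ((x' : ℤ) + v - x) =
          (i + i0) * a + (j + j0) * b - x := by ring
      rwa [e] at this
  rcases hx with hx | hx | hx | hx | hx
  · obtain ⟨i, j, h1, h2⟩ := h x hx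
    exact ⟨i, j, by push_cast; linarith, h2⟩
  · exact key a 1 0 (by norm_num) ha ⟨0, by ring⟩ hx
  · exact key (n - a) (-1) 0 (by norm_num) (by omega)
      ⟨1, by rw [Nat.cast_sub ha]; ring⟩ hx
  · exact key b 0 1 (by norm_num) hb ⟨0, by ring⟩ hx
  · exact key (n - b) 0 (-1) (by norm_num) (by omega)
      ⟨1, by rw [Nat.cast_sub hb]; ring⟩ hx

theorem masks_cons {n a b : ℕ} (ha : a ≤ n) (hb : b ≤ n) (r : ℕ) :
    ∃ S, masks n a b (r + 1) = S :: masks n a b r ∧ Repr n a b r S := by
  induction r with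
  | zero =>
    refine ⟨1, rfl, fun x hx => ?_⟩
    have hx0 : x = 0 := by
      by_contra hne
      rw [Nat.testBit_one_eq_true_iff_self_eq_zero] at hx
      exact hne hx
    subst hx0
    exact ⟨0, 0, by simp, ⟨0, by simp⟩⟩
  | succ r ih =>
    obtain ⟨S, h1, h2⟩ := ih
    refine ⟨step n a b S, ?_, repr_step ha hb h2⟩
    rw [show masks n a b (r + 1 + 1) = (match masks n a b (r + 1) with
      | [] => []
      | S :: L => step n a b S :: S :: L) from rfl, h1]

theorem hit_sound {n a b c : ℕ} (ha : a ≤ n) (hb : b ≤ n) (r k : ℕ)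
    (h : hit n c k (masks n a b r) = true) :
    ∃ (m : ℕ) (i j : ℤ), k ≤ m ∧ |i| + |j| + (m : ℤ) - k + 1 ≤ r ∧
      (n : ℤ) ∣ i * a + j * b - m * c := by
  induction r generalizing k with
  | zero => simp [masks, hit] at h
  | succ r ih =>
    obtain ⟨S, h1, h2⟩ := masks_cons ha hb r
    rw [h1] at h
    simp only [hit, Bool.or_eq_true] at h
    rcases h with h | h
    · obtain ⟨i, j, h3, h4⟩ := h2 _ h
      refine ⟨k, i, j, le_rfl, by push_cast; linarith, ?_⟩
      have h5 : (n : ℤ) ∣ ((k * c % n : ℕ) : ℤ) - (k : ℤ) * c := by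
        have := Int.emod_add_mul_ediv ((k : ℤ) * c) n
        refine ⟨-((k : ℤ) * c / n), ?_⟩
        push_cast
        linarith
      have := dvd_add h4 h5
      have e : i * a + j * b - ((k * c % n : ℕ) : ℤ) + (((k * c % n : ℕ) : ℤ) - (k : ℤ) * c) =
          i * a + j * b - k * c := by ring
      rwa [e] at this
    · obtain ⟨m, i, j, h3, h4, h5⟩ := ih (k + 1) h
      refine ⟨m, i, j, by omega, ?_, h5⟩
      push_cast at h4 ⊢
      linarith

theorem scanA_sound {n t a b c : ℕ} (ha : a ≤ n) (hb : b ≤ n / 2) (hc : c ≤ n / 2)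
    (h : scanA n t a = true) (hi : Ind3 n t a b c) : False := by
  unfold scanA at h
  simp only [Bool.or_eq_true] at h
  rcases h with h | h
  · obtain ⟨m, i, j, h1, h2, h3⟩ := hit_sound (n := n) (a := 0) (b := 0) (c := a)
      (Nat.zero_le _) (Nat.zero_le _) t 1 h
    have h4 := hi (-m) 0 0 (by intro h; have := h.1; omega) (by
      have : (-(m : ℤ)) * a + 0 * b + 0 * c = i * ((0 : ℕ) : ℤ) + j * ((0 : ℕ) : ℤ) - m * a := by
        push_cast; ring
      rw [this]; exact h3)
    rw [abs_neg, abs_zero, Nat.abs_cast] at h4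
    have := abs_nonneg i
    have := abs_nonneg j
    push_cast at h2
    linarith
  · have h' := allUpTo_iff h b hb
    simp only [Bool.or_eq_true] at h'
    rcases h' with h' | h'
    · obtain ⟨m, i, j, h1, h2, h3⟩ := hit_sound (n := n) (a := a) (b := 0) (c := b)
        ha (Nat.zero_le _) t 1 h'
      have h4 := hi i (-m) 0 (by intro h; have := h.2.1; omega) (by
        have : i * a + (-(m : ℤ)) * b + 0 * c = i * a + j * ((0 : ℕ) : ℤ) - m * b := by
          push_cast; ring
        rw [this]; exact h3)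
      rw [abs_neg, abs_zero, Nat.abs_cast] at h4
      have := abs_nonneg j
      push_cast at h2
      linarith
    · have h'' := allUpTo_iff h' c hc
      obtain ⟨m, i, j, h1, h2, h3⟩ := hit_sound (n := n) (a := a) (b := b) (c := c)
        ha (hb.trans (Nat.div_le_self _ _)) t 1 h''
      have h4 := hi i j (-m) (by intro h; have := h.2.2; omega) (by
        have : i * a + j * b + (-(m : ℤ)) * c = i * a + j * b - m * c := by ring
        rw [this]; exact h3)
      rw [abs_neg, Nat.abs_cast] at h4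
      push_cast at h2
      linarith

/-- every residue is, up to sign, at most `n / 2` -/
theorem half {n : ℕ} (hn : 1 ≤ n) (b : ℤ) : ∃ (b' : ℕ) (s : ℤ), b' ≤ n / 2 ∧ (s = 1 ∨ s = -1) ∧
    (n : ℤ) ∣ s * b' - b := by
  have hn' : (0 : ℤ) < n := by exact_mod_cast hn
  have h1 := Int.emod_nonneg b hn'.ne'
  have h2 := Int.emod_lt_of_pos b hn'
  have h3 := Int.emod_add_mul_ediv b n
  obtain ⟨r, hr⟩ : ∃ r : ℕ, (r : ℤ) = b % n := ⟨(b % n).toNat, Int.toNat_of_nonneg h1⟩
  rcases Nat.lt_or_ge (n / 2) r with h | h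
  · refine ⟨n - r, -1, by omega, Or.inr rfl, ⟨-1 - b / n, ?_⟩⟩
    have : r ≤ n := by omega
    rw [Nat.cast_sub this, hr]
    linarith
  · refine ⟨r, 1, h, Or.inl rfl, ⟨-(b / n), ?_⟩⟩
    rw [hr]
    linarith

theorem noTriple_sound {n t : ℕ} (hn : 1 ≤ n) (h : noTriple n t = true) (a b c : ℤ)
    (hi : Ind3 n t a b c) : False := by
  unfold noTriple at h
  rw [Bool.and_eq_true, List.all_eq_true] at h
  obtain ⟨hu, hs⟩ := h
  have hn' : (0 : ℤ) < n := by exact_mod_cast hn
  obtain ⟨a0, ha0⟩ : ∃ r : ℕ, (r : ℤ) = a % n :=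
    ⟨(a % n).toNat, Int.toNat_of_nonneg (Int.emod_nonneg a hn'.ne')⟩
  have ha0' : a0 ≤ n - 1 := by
    have := Int.emod_lt_of_pos a hn'
    omega
  have h1 := allUpTo_iff hu a0 ha0'
  obtain ⟨u, -, h2⟩ := anyUpTo_iff h1
  rw [Bool.and_eq_true, beq_iff_eq, List.contains_iff_mem] at h2
  obtain ⟨hg, hm⟩ := h2
  have hcop : IsCoprime (n : ℤ) (u : ℤ) := by
    rw [Nat.isCoprime_iff_coprime]
    exact (Nat.coprime_comm.1 hg)
  have h3 := hs _ hm
  obtain ⟨b', sb, hb', hsb, hbd⟩ := half hn (u * b)
  obtain ⟨c', sc, hc', hsc, hcd⟩ := half hn (u * c)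
  refine scanA_sound (n := n) (t := t) (a := u * a0 % n) (b := b') (c := c')
    (Nat.mod_lt _ hn).le hb' hc' h3 ?_
  intro x y z h0 hd
  have h5 : (n : ℤ) ∣ ((u * a0 % n : ℕ) : ℤ) - u * a := by
    have e1 := Int.emod_add_mul_ediv ((u : ℤ) * a0) n
    have e2 := Int.emod_add_mul_ediv a n
    refine ⟨-((u : ℤ) * a0 / n) - u * (a / n), ?_⟩
    push_cast
    rw [← ha0] at e2
    have : (u : ℤ) * a = u * a0 + u * (n * (a / n)) := by rw [← mul_add, e2]
    rw [this]
    linarith
  have hsb2 : sb * sb = 1 := by rcases hsb with h | h <;> simp [h]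
  have hsc2 : sc * sc = 1 := by rcases hsc with h | h <;> simp [h]
  have h6 : (n : ℤ) ∣ u * (x * a + (y * sb) * b + (z * sc) * c) := by
    have e := dvd_sub (dvd_sub (dvd_sub hd (Dvd.dvd.mul_left h5 x))
      (Dvd.dvd.mul_left hbd (y * sb))) (Dvd.dvd.mul_left hcd (z * sc))
    have e1 : x * ((u * a0 % n : ℕ) : ℤ) + y * b' + z * c' -
        x * (((u * a0 % n : ℕ) : ℤ) - u * a) - y * sb * (sb * b' - u * b) -
        z * sc * (sc * c' - u * c) =
        u * (x * a + (y * sb) * b + (z * sc) * c) + y * b' * (1 - sb * sb) +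
          z * c' * (1 - sc * sc) := by ring
    rw [e1, hsb2, hsc2] at e
    simpa using e
  have h7 := hcop.dvd_of_dvd_mul_left h6
  have h8 := hi x (y * sb) (z * sc) (by
    rintro ⟨e1, e2, e3⟩
    apply h0
    refine ⟨e1, ?_, ?_⟩
    · have : y * (sb * sb) = 0 := by rw [← mul_assoc, e2, zero_mul]
      rwa [hsb2, mul_one] at this
    · have : z * (sc * sc) = 0 := by rw [← mul_assoc, e3, zero_mul]
      rwa [hsc2, mul_one] at this) h7
  have e1 : |y * sb| = |y| := by
    rcases hsb with h | h <;> simp [h]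
  have e2 : |z * sc| = |z| := by
    rcases hsc with h | h <;> simp [h]
  rwa [e1, e2] at h8

/-- the existence of an independent triple -/
theorem triple_iff' {n t : ℕ} (hn : 1 ≤ n) (ht : 2 ≤ t) :
    (∃ A : Finset (ZMod n), A.card = 3 ∧ Pool.Agent.TInd.IsIndep t A) ↔
    ∃ a b c : ℤ, Ind3 n t a b c := by
  rw [Pool.Agent.TInd.triple_iff hn ht]
  constructor
  · rintro ⟨c, hc⟩
    refine ⟨c 0, c 1, c 2, fun x y z h0 hd => ?_⟩
    have h1 := hc ![x, y, z] (by
      intro h
      apply h0
      exact ⟨congrFun h 0, congrFun h 1, congrFun h 2⟩) (by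
      simp only [Fin.sum_univ_three, Matrix.cons_val_zero, Matrix.cons_val_one, Matrix.cons_val]
      have e : c 0 * x + c 1 * y + c 2 * z = x * c 0 + y * c 1 + z * c 2 := by ring
      rw [e]
      exact hd)
    simpa [Fin.sum_univ_three] using h1
  · rintro ⟨a, b, c, hi⟩
    refine ⟨![a, b, c], fun y hy hd => ?_⟩
    have h1 := hi (y 0) (y 1) (y 2) (by
      rintro ⟨e1, e2, e3⟩
      apply hy
      funext i
      fin_cases i
      · exact e1
      · exact e2
      · exact e3) (by
      simp only [Fin.sum_univ_three, Matrix.cons_val_zero, Matrix.cons_val_one,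
        Matrix.cons_val] at hd
      have e : a * y 0 + b * y 1 + c * y 2 = y 0 * a + y 1 * b + y 2 * c := by ring
      rw [← e]
      exact hd)
    simpa [Fin.sum_univ_three] using h1

/-! ### Explicit triples -/

def dist (y t : ℕ) : ℕ := (y - t) + (t - y)

def indOK (n t a b c : ℕ) : Bool :=
  allUpTo (fun x => allUpTo (fun y => allUpTo (fun z =>
    Nat.blt t (x + dist y t + dist z t) || (Nat.beq x 0 && (Nat.beq y t && Nat.beq z t)) ||
      !(Nat.beq ((x * a + y * b + z * c) % n) ((t * b + t * c) % n))) (2 * t)) (2 * t)) t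

theorem indOK_sound {n t a b c : ℕ} (h : indOK n t a b c = true) : Ind3 n t a b c := by
  have key : ∀ x y z : ℤ, 0 ≤ x → ¬ (x = 0 ∧ y = 0 ∧ z = 0) →
      (n : ℤ) ∣ x * a + y * b + z * c → (t : ℤ) < |x| + |y| + |z| := by
    intro x y z hx h0 hd
    by_contra hlt
    push Not at hlt
    rw [abs_of_nonneg hx] at hlt
    have hy := neg_abs_le y
    have hy' := le_abs_self y
    have hz := neg_abs_le z
    have hz' := le_abs_self z
    have hy0 := abs_nonneg y
    have hz0 := abs_nonneg z
    obtain ⟨x', rfl⟩ := Int.eq_ofNat_of_zero_le hx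
    obtain ⟨y', hy'1⟩ := Int.eq_ofNat_of_zero_le (show 0 ≤ y + t by linarith)
    obtain ⟨z', hz'1⟩ := Int.eq_ofNat_of_zero_le (show 0 ≤ z + t by linarith)
    have hx2 : x' ≤ t := by
      have : (x' : ℤ) ≤ t := by linarith
      exact_mod_cast this
    have hy2 : y' ≤ 2 * t := by
      have : (y' : ℤ) ≤ 2 * t := by linarith
      exact_mod_cast this
    have hz2 : z' ≤ 2 * t := by
      have : (z' : ℤ) ≤ 2 * t := by linarith
      exact_mod_cast this
    have h1 := allUpTo_iff (allUpTo_iff (allUpTo_iff h x' hx2) y' hy2) z' hz2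
    simp only [Bool.or_eq_true, Bool.and_eq_true, Nat.blt_eq, Nat.beq_eq,
      Bool.not_eq_true'] at h1
    rcases h1 with (h1 | h1) | h1
    · have e1 : (dist y' t : ℤ) = |y| := by
        have : y = (y' : ℤ) - t := by linarith
        rw [this]
        unfold dist
        rcases Nat.lt_or_ge y' t with h2 | h2
        · rw [abs_of_nonpos (by linarith [(by exact_mod_cast h2.le : (y' : ℤ) ≤ t)])]
          have : y' - t = 0 := by omega
          push_cast [this, Nat.cast_sub h2.le]
          ring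
        · rw [abs_of_nonneg (by linarith [(by exact_mod_cast h2 : (t : ℤ) ≤ y')])]
          have : t - y' = 0 := by omega
          push_cast [this, Nat.cast_sub h2]
          ring
      have e2 : (dist z' t : ℤ) = |z| := by
        have : z = (z' : ℤ) - t := by linarith
        rw [this]
        unfold dist
        rcases Nat.lt_or_ge z' t with h2 | h2
        · rw [abs_of_nonpos (by linarith [(by exact_mod_cast h2.le : (z' : ℤ) ≤ t)])]
          have : z' - t = 0 := by omega
          push_cast [this, Nat.cast_sub h2.le]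
          ring
        · rw [abs_of_nonneg (by linarith [(by exact_mod_cast h2 : (t : ℤ) ≤ z')])]
          have : t - z' = 0 := by omega
          push_cast [this, Nat.cast_sub h2]
          ring
      have h2 : (t : ℤ) < x' + dist y' t + dist z' t := by exact_mod_cast h1
      rw [e1, e2] at h2
      linarith
    · apply h0
      obtain ⟨e1, e2, e3⟩ := h1
      subst e1 e2 e3
      refine ⟨rfl, by linarith, by linarith⟩
    · refine Nat.ne_of_beq_eq_false h1 ?_
      have : (x' * a + y' * b + z' * c : ℕ) ≡ t * b + t * c [MOD n] := by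
        rw [← Int.natCast_modEq_iff, Int.modEq_iff_dvd]
        push_cast
        have e : (t : ℤ) * b + t * c - (x' * a + y' * b + z' * c) =
            -((x' : ℤ) * a + y * b + z * c) := by
          have e1 : y = (y' : ℤ) - t := by linarith
          have e2 : z = (z' : ℤ) - t := by linarith
          rw [e1, e2]
          ring
        rw [e]
        exact (dvd_neg.2 hd)
      exact this
  intro x y z h0 hd
  rcases le_total 0 x with hx | hx
  · exact key x y z hx h0 hd
  · have h1 := key (-x) (-y) (-z) (by linarith) (by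
      rintro ⟨e1, e2, e3⟩
      exact h0 ⟨by linarith, by linarith, by linarith⟩) (by
      have e : -x * a + -y * b + -z * c = -(x * a + y * b + z * c) := by ring
      rw [e]
      exact dvd_neg.2 hd)
    rwa [abs_neg, abs_neg, abs_neg] at h1

/-- a triple which is independent modulo a number larger than `t c` is independent modulo all
larger numbers -/
theorem ind_large {M t a b c n : ℕ} (hab : a ≤ c) (hbc : b ≤ c) (hM : t * c < M) (hn : M ≤ n)
    (h : indOK M t a b c = true) : Ind3 n t a b c := by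
  intro x y z h0 hd
  by_contra hlt
  push Not at hlt
  have h1 : |x * a + y * b + z * c| ≤ t * c := by
    have e1 : |x * a + y * b + z * c| ≤ |x * a| + |y * b| + |z * c| := abs_add_three _ _ _
    rw [abs_mul, abs_mul, abs_mul, Nat.abs_cast, Nat.abs_cast, Nat.abs_cast] at e1
    have ha : (a : ℤ) ≤ c := by exact_mod_cast hab
    have hb : (b : ℤ) ≤ c := by exact_mod_cast hbc
    have e2 : |x| * a ≤ |x| * c := mul_le_mul_of_nonneg_left ha (abs_nonneg _)
    have e3 : |y| * b ≤ |y| * c := mul_le_mul_of_nonneg_left hb (abs_nonneg _)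
    have e4 : (|x| + |y| + |z|) * c ≤ t * c := mul_le_mul_of_nonneg_right hlt (Nat.cast_nonneg _)
    linarith
  have h2 : x * a + y * b + z * c = 0 := by
    apply Int.eq_zero_of_abs_lt_dvd hd
    have : (t : ℤ) * c < n := by exact_mod_cast hM.trans_le hn
    linarith
  have h3 := indOK_sound h x y z h0 (by rw [h2]; exact dvd_zero _)
  linarith

end Pool.Agent.TSmall
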