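import Pool.Agent.TSmall.Asm

/-!
# The set `N 2` (helper3)
-/

set_option autoImplicit false
set_option maxRecDepth 100000

namespace Pool.Agent.TSmall

open Pool.Agent.TInd

theorem N_two : N 2 = {5, 6} := by
  ext n
  constructor
  · intro h
    have h1 := N_ge (by norm_num) (by decide) h
    have h2 : n < 7 := by
      by_contra hlt
      push Not at hlt
      exact not_mem_of_ind3 (by omega) (by norm_num)
        (ind_large (by norm_num) (by norm_num) (by norm_num) hlt
          (by decide +kernel : indOK 7 2 1 2 3 = true)) h
    rw [Set.mem_insert_iff, Set.mem_singleton_iff]
    omega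
  · intro h
    rw [Set.mem_insert_iff, Set.mem_singleton_iff] at h
    rcases h with rfl | rfl
    · exact mem_of_noTriple (by norm_num) (by decide) (by norm_num)
        (by decide +kernel : noTriple 5 2 = true)
    · exact mem_of_noTriple (by norm_num) (by decide) (by norm_num)
        (by decide +kernel : noTriple 6 2 = true)

end Pool.Agent.TSmall
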